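import Pool.Agent.H91.CL.Ct

/-!
MP_f2ed2a_nt / CycleCount: the number of cycles of length at most `P` of generalized Collatz maps
of relatively prime type. `T`, `d`, `m`, `r` are as in the frozen statement S18955; `Cyc A` is the
set of the cycles (as sets of integers) whose length belongs to `A`.
-/

namespace Pool.Agent.Results.MP_f2ed2a_nt.CycleCount

theorem result (d : ℕ) (hd : 2 ≤ d) (m r : ℕ → ℤ)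
    (hr : ∀ i : ℕ, i < d → r i ≡ (i : ℤ) * m i [ZMOD (d : ℤ)])
    (hg : Int.gcd (∏ i ∈ Finset.range d, m i) (d : ℤ) = 1)
    (hρ : ∃ ρ : ℚ, 0 < ρ ∧ ∀ i < d, ∃ k : ℤ, |(m i : ℚ)| = |(m 0 : ℚ)| * ρ ^ k)
    (T : ℤ → ℤ)
    (hT : T = fun x : ℤ => (m (x % (d : ℤ)).toNat * x - r (x % (d : ℤ)).toNat) / (d : ℤ))
    (Cyc : Set ℕ → Set (Set ℤ))
    (hCyc : Cyc = fun A : Set ℕ => {C : Set ℤ | ∃ x : ℤ, 1 ≤ Function.minimalPeriod T x ∧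
      Function.minimalPeriod T x ∈ A ∧ C = Set.range (fun n : ℕ => T^[n] x)}) :
    ∃ c : ℝ, 0 < c ∧
      (∃ K : ℝ,
        (∀ P : ℕ, 2 ≤ P → ∃ q : ℕ, c * Real.log P ≤ q ∧ (Cyc {p | p ≤ P ∧ ¬ q ∣ p}).Finite ∧
          ((Cyc {p | p ≤ P ∧ ¬ q ∣ p}).ncard : ℝ) ≤ K * P * Real.log P) ∧
        ∀ P₀ : ℕ, ∃ P : ℕ, P₀ ≤ P ∧ 2 ≤ P ∧ (Cyc {p | p ≤ P}).Finite ∧
          ((Cyc {p | p ≤ P}).ncard : ℝ) ≤ K * P * Real.log P) ∧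
      (|∏ i ∈ Finset.range d, m i| < (d : ℤ) ^ d ∨ ∑ i ∈ Finset.range d, 1 / |(m i : ℝ)| < 1 →
        ∃ δ : ℝ, 0 < δ ∧ ∃ K : ℝ,
          (∀ P : ℕ, 2 ≤ P → ∃ q : ℕ, c * Real.log P ≤ q ∧ (Cyc {p | p ≤ P ∧ ¬ q ∣ p}).Finite ∧
            ((Cyc {p | p ≤ P ∧ ¬ q ∣ p}).ncard : ℝ) ≤ K * (P : ℝ) ^ (1 - δ)) ∧
          ∀ P₀ : ℕ, ∃ P : ℕ, P₀ ≤ P ∧ 2 ≤ P ∧ (Cyc {p | p ≤ P}).Finite ∧
            ((Cyc {p | p ≤ P}).ncard : ℝ) ≤ K * (P : ℝ) ^ (1 - δ)) := by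
  have hC : Pool.Agent.H91.CL.CoprimeType d m r := ⟨hd, hr, hg⟩
  have hT' : T = Pool.Agent.H91.CL.collatz d m r := hT
  subst hT'
  have hCyc' : Cyc = Pool.Agent.H91.CL.cyc d m r := hCyc
  subst hCyc'
  obtain ⟨c, hc0, -, h1, h2⟩ := Pool.Agent.H91.CL.lower hC hρ
  refine ⟨c, hc0, ?_, fun h => ?_⟩
  · obtain ⟨K, hK⟩ := Pool.Agent.H91.CL.gen_cyc hC hc0
    exact ⟨K, Pool.Agent.H91.CL.combine h1 h2 hK⟩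
  · obtain ⟨δ, hδ, K, hK⟩ := Pool.Agent.H91.CL.sparse_cyc hC h hc0
    exact ⟨δ, hδ, K, Pool.Agent.H91.CL.combine h1 h2 hK⟩

end Pool.Agent.Results.MP_f2ed2a_nt.CycleCount
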