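import Pool.Agent.H91.CL.Mul

/-!
MP_f2ed2a_nt / CycleMultipliers: multipliers of cycles of generalized Collatz maps of relatively
prime type. `T`, `d`, `m`, `r` are as in the frozen statement S18955; `Λ x = log (|M| / d ^ p)` for
the cycle through the periodic point `x`, of length `p` and multiplier `M`.
-/

namespace Pool.Agent.Results.MP_f2ed2a_nt.CycleMultipliers

theorem result (d : ℕ) (hd : 2 ≤ d) (m r : ℕ → ℤ)
    (hr : ∀ i : ℕ, i < d → r i ≡ (i : ℤ) * m i [ZMOD (d : ℤ)])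
    (hg : Int.gcd (∏ i ∈ Finset.range d, m i) (d : ℤ) = 1)
    (T : ℤ → ℤ)
    (hT : T = fun x : ℤ => (m (x % (d : ℤ)).toNat * x - r (x % (d : ℤ)).toNat) / (d : ℤ))
    (Λ : ℤ → ℝ)
    (hΛ : Λ = fun x : ℤ => Real.log
      (|((∏ n ∈ Finset.range (Function.minimalPeriod T x), m (T^[n] x % (d : ℤ)).toNat : ℤ) : ℝ)| /
        (d : ℝ) ^ Function.minimalPeriod T x))
    (Dis : Finset ℤ → Prop)
    (hDis : Dis = fun s : Finset ℤ => (∀ x ∈ s, x ∈ Function.periodicPts T) ∧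
      ∀ x ∈ s, ∀ y ∈ s, x ≠ y → ∀ a b : ℕ, T^[a] x ≠ T^[b] y) :
    (∃ K : ℝ, ∀ P : ℕ, 2 ≤ P → ∀ s : Finset ℤ, Dis s → s.card ≤ P →
      (∀ x ∈ s, Function.minimalPeriod T x ≤ P) → ∑ x ∈ s, |Λ x| ≤ K * Real.log P) ∧
    (|∏ i ∈ Finset.range d, m i| < (d : ℤ) ^ d ∨ ∑ i ∈ Finset.range d, 1 / |(m i : ℝ)| < 1 →
      (∀ ε : ℝ, 0 < ε → {x : ℤ | x ∈ Function.periodicPts T ∧ ε ≤ |Λ x|}.Finite) ∧
      (∃ K : ℝ, ∀ s : Finset ℤ, Dis s → ∑ x ∈ s, |Λ x| ≤ K) ∧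
      ∃ δ : ℝ, 0 < δ ∧ ∃ K : ℝ,
        (∀ X : ℕ, 1 ≤ X → ((Function.periodicPts T ∩ Set.Icc (-(X : ℤ)) X).ncard : ℝ) ≤
          K * (X : ℝ) ^ (1 - δ)) ∧
        (∀ X : ℕ, 1 ≤ X → ∀ x ∈ Function.periodicPts T, (∀ n : ℕ, (X : ℤ) ≤ |T^[n] x|) →
          |Λ x| ≤ K * (X : ℝ) ^ (-δ))) := by
  have hC : Pool.Agent.H91.CL.CoprimeType d m r := ⟨hd, hr, hg⟩
  have hT' : T = Pool.Agent.H91.CL.collatz d m r := hT
  subst hT'
  have hΛ' : Λ = Pool.Agent.H91.CL.logMult d m r := hΛ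
  subst hΛ'
  have hD : ∀ s, Dis s ↔ Pool.Agent.H91.CL.DistinctCycles (Pool.Agent.H91.CL.collatz d m r) s := by
    intro s
    rw [hDis]
    unfold Pool.Agent.H91.CL.DistinctCycles
    simp only [← Function.minimalPeriod_pos_iff_mem_periodicPts, Nat.succ_le_iff]
  refine ⟨?_, fun h => ?_⟩
  · obtain ⟨K, hK⟩ := Pool.Agent.H91.CL.sum_le_log hC
    exact ⟨K, fun P hP s hs hsP hl => hK P hP s hsP ((hD s).1 hs) hl⟩
  · obtain ⟨δ, hδ, K, h1, h2, h3⟩ := Pool.Agent.H91.CL.sparse_case hC h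
    refine ⟨fun ε hε => ?_, ⟨K, fun s hs => h3 s ((hD s).1 hs)⟩, δ, hδ, K, h1, h2⟩
    exact Pool.Agent.H91.CL.finite_of_decay hδ h2 hε

end Pool.Agent.Results.MP_f2ed2a_nt.CycleMultipliers
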