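import Pool.Agent.H91.CL.Sl

/-!
MP_f2ed2a_nt / SparseCycleLengths: lengths of cycles of generalized Collatz maps of relatively
prime type, in the sparse case. `T`, `d`, `m`, `r` are as in the frozen statement S18955.
-/

namespace Pool.Agent.Results.MP_f2ed2a_nt.SparseCycleLengths

theorem result (d : ℕ) (hd : 2 ≤ d) (m r : ℕ → ℤ)
    (hr : ∀ i : ℕ, i < d → r i ≡ (i : ℤ) * m i [ZMOD (d : ℤ)])
    (hg : Int.gcd (∏ i ∈ Finset.range d, m i) (d : ℤ) = 1)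
    (hρ : ∃ ρ : ℚ, 0 < ρ ∧ ∀ i < d, ∃ k : ℤ, |(m i : ℚ)| = |(m 0 : ℚ)| * ρ ^ k)
    (hs : |∏ i ∈ Finset.range d, m i| < (d : ℤ) ^ d ∨ ∑ i ∈ Finset.range d, 1 / |(m i : ℝ)| < 1)
    (T : ℤ → ℤ)
    (hT : T = fun x : ℤ => (m (x % (d : ℤ)).toNat * x - r (x % (d : ℤ)).toNat) / (d : ℤ)) :
    ∃ δ : ℝ, 0 < δ ∧ ∃ K : ℝ, ∀ P₀ : ℕ, ∃ P : ℕ, P₀ ≤ P ∧ 2 ≤ P ∧
      (({p : ℕ | 1 ≤ p ∧ p ≤ P ∧ ∃ x : ℤ, Function.minimalPeriod T x = p}.ncard : ℕ) : ℝ) ≤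
        K * (P : ℝ) ^ (1 / 2 - δ) := by
  subst hT
  exact Pool.Agent.H91.CL.sparse_len (d := d) (m := m) (r := r) ⟨hd, hr, hg⟩ hρ hs

end Pool.Agent.Results.MP_f2ed2a_nt.SparseCycleLengths
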